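import Mathlib

/-!
# Semilinear maps and norms

If `τ` is a `σ`-semilinear map of a finite dimensional space `V` over a field `E` with `τ ^ n = a`,
then `a ^ dim V` is a norm `∏ σ ^ i (y)`; if `dim V` is prime to `n`, then `a` is a norm.
-/

set_option autoImplicit false

namespace Pool.Agent.Helper32.CL

open Finset Module

variable {E : Type*} [Field E]

/-- the norm with respect to `σ` -/
def nmσ (σ : E →+* E) (n : ℕ) (y : E) : E := ∏ i ∈ range n, (σ ^ i) y

theorem nmσ_succ (σ : E →+* E) (n : ℕ) (y : E) : nmσ σ (n + 1) y = σ (nmσ σ n y) * y := by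
  unfold nmσ
  rw [prod_range_succ', map_prod]
  simp only [pow_zero, RingHom.one_def, RingHom.id_apply]
  congr 1
  apply prod_congr rfl
  intro i _
  rw [pow_succ']
  rfl

theorem nmσ_mul (σ : E →+* E) (n : ℕ) (x y : E) : nmσ σ n (x * y) = nmσ σ n x * nmσ σ n y := by
  unfold nmσ
  rw [← prod_mul_distrib]
  apply prod_congr rfl
  intro i _
  rw [map_mul]

theorem nmσ_zpow (σ : E →+* E) (n : ℕ) (x : E) (k : ℤ) : nmσ σ n (x ^ k) = nmσ σ n x ^ k := by
  unfold nmσ
  rw [← prod_zpow]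
  apply prod_congr rfl
  intro i _
  rw [map_zpow₀]

theorem nmσ_fixed (σ : E →+* E) (n : ℕ) {a : E} (ha : σ a = a) : nmσ σ n a = a ^ n := by
  induction n with
  | zero => simp [nmσ]
  | succ n ih => rw [nmσ_succ, ih, map_pow, ha, pow_succ]

variable {V : Type*} [AddCommGroup V] [Module E V] [FiniteDimensional E V]

/-- determinant of a semilinear map -/
theorem semi_det (σ : E →+* E) (τ : V →+ V) (hτ : ∀ (c : E) (v : V), τ (c • v) = σ c • τ v)
    {a : E} {n : ℕ} (hn : ∀ v, τ^[n] v = a • v) :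
    ∃ y : E, nmσ σ n y = a ^ finrank E V := by
  classical
  set b := finBasis E V with hb
  set J : Matrix (Fin (finrank E V)) (Fin (finrank E V)) E := fun p q => b.repr (τ (b p)) q with hJ
  have key : ∀ m : ℕ, ∃ Jm : Matrix (Fin (finrank E V)) (Fin (finrank E V)) E,
      (∀ p q, b.repr (τ^[m] (b p)) q = Jm p q) ∧ Jm.det = nmσ σ m J.det := by
    intro m
    induction m with
    | zero =>
      refine ⟨1, ?_, ?_⟩
      · intro p q
        simp [Matrix.one_apply, Finsupp.single_apply]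
      · simp [nmσ]
    | succ m ih =>
      obtain ⟨Jm, h1, h2⟩ := ih
      refine ⟨σ.mapMatrix Jm * J, ?_, ?_⟩
      · intro p r
        rw [Function.iterate_succ_apply']
        have h3 : τ^[m] (b p) = ∑ q, Jm p q • b q := by
          rw [← b.sum_repr (τ^[m] (b p))]
          apply sum_congr rfl
          intro q _
          rw [h1]
        rw [h3, map_sum, map_sum, Finsupp.finsetSum_apply, Matrix.mul_apply]
        apply sum_congr rfl
        intro q _
        rw [hτ, map_smul, Finsupp.smul_apply, smul_eq_mul]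
        rfl
      · rw [Matrix.det_mul, nmσ_succ, ← h2, RingHom.map_det]
  obtain ⟨Jn, h1, h2⟩ := key n
  refine ⟨J.det, ?_⟩
  rw [← h2]
  have h3 : Jn = a • (1 : Matrix (Fin (finrank E V)) (Fin (finrank E V)) E) := by
    ext p q
    rw [← h1, hn]
    simp [Matrix.one_apply, Finsupp.single_apply]
  rw [h3, Matrix.det_smul, Matrix.det_one, mul_one, Fintype.card_fin]

/-- **semilinear norm lemma** -/
theorem semi_norm (σ : E →+* E) (τ : V →+ V) (hτ : ∀ (c : E) (v : V), τ (c • v) = σ c • τ v)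
    {a : E} (ha0 : a ≠ 0) (ha : σ a = a) {n : ℕ} (hn : ∀ v, τ^[n] v = a • v)
    (hcop : Nat.Coprime (finrank E V) n) :
    ∃ y : E, y ≠ 0 ∧ nmσ σ n y = a := by
  obtain ⟨y, hy⟩ := semi_det σ τ hτ hn
  by_cases hn0 : n = 0
  · subst hn0
    rw [Nat.coprime_zero_right] at hcop
    refine ⟨1, one_ne_zero, ?_⟩
    rw [hcop, pow_one] at hy
    simpa [nmσ] using hy
  have hy0 : y ≠ 0 := by
    rintro rfl
    apply pow_ne_zero (finrank E V) ha0
    rw [← hy]
    unfold nmσ
    exact prod_eq_zero (i := 0) (mem_range.2 (Nat.pos_of_ne_zero hn0)) (by simp)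
  have hbez : (finrank E V : ℤ) * Nat.gcdA (finrank E V) n + n * Nat.gcdB (finrank E V) n = 1 := by
    have := Nat.gcd_eq_gcd_ab (finrank E V) n
    rw [hcop] at this
    exact_mod_cast this.symm
  refine ⟨y ^ Nat.gcdA (finrank E V) n * a ^ Nat.gcdB (finrank E V) n,
    mul_ne_zero (zpow_ne_zero _ hy0) (zpow_ne_zero _ ha0), ?_⟩
  rw [nmσ_mul, nmσ_zpow, nmσ_zpow, hy, nmσ_fixed σ n ha, ← zpow_natCast, ← zpow_natCast,
    ← zpow_mul, ← zpow_mul, ← zpow_add₀ ha0, hbez, zpow_one]

/-- the same for a stable subspace -/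
theorem semi_norm_sub (σ : E →+* E) (τ : V →+ V) (hτ : ∀ (c : E) (v : V), τ (c • v) = σ c • τ v)
    {a : E} (ha0 : a ≠ 0) (ha : σ a = a) {n : ℕ} (hn : ∀ v, τ^[n] v = a • v)
    (W : Submodule E V) (hW : ∀ v ∈ W, τ v ∈ W) (hcop : Nat.Coprime (finrank E W) n) :
    ∃ y : E, y ≠ 0 ∧ nmσ σ n y = a := by
  let τ' : W →+ W :=
    { toFun := fun v => ⟨τ v, hW v v.2⟩
      map_zero' := by simp
      map_add' := fun x y => by
        apply Subtype.ext
        simp }
  have hτ'1 : ∀ v : W, ((τ' v : W) : V) = τ v := fun v => rfl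
  have hτ'2 : ∀ (m : ℕ) (v : W), ((τ'^[m] v : W) : V) = τ^[m] v := by
    intro m
    induction m with
    | zero => intro v; rfl
    | succ m ih =>
      intro v
      rw [Function.iterate_succ_apply', Function.iterate_succ_apply', hτ'1, ih]
  refine semi_norm σ τ' (fun c v => ?_) ha0 ha (fun v => ?_) hcop
  · apply Subtype.ext
    rw [hτ'1, Submodule.coe_smul, hτ, Submodule.coe_smul, hτ'1]
  · apply Subtype.ext
    rw [hτ'2, hn, Submodule.coe_smul]

/-- for a prime exponent: a stable subspace which is neither `0` nor of dimension at least `n` -/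
theorem semi_norm_prime (σ : E →+* E) (τ : V →+ V)
    (hτ : ∀ (c : E) (v : V), τ (c • v) = σ c • τ v)
    {a : E} (ha0 : a ≠ 0) (ha : σ a = a) {n : ℕ} (hp : n.Prime) (hn : ∀ v, τ^[n] v = a • v)
    (W : Submodule E V) (hW : ∀ v ∈ W, τ v ∈ W) (hW0 : W ≠ ⊥) (hW1 : finrank E W < n) :
    ∃ y : E, y ≠ 0 ∧ nmσ σ n y = a := by
  refine semi_norm_sub σ τ hτ ha0 ha hn W hW ?_
  have h0 : 0 < finrank E W := by
    rw [finrank_pos_iff_exists_ne_zero]
    obtain ⟨v, hv, hv0⟩ := W.ne_bot_iff.1 hW0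
    exact ⟨⟨v, hv⟩, fun h => hv0 (congrArg Subtype.val h)⟩
  exact ((Nat.Prime.coprime_iff_not_dvd hp).2 (Nat.not_dvd_of_pos_of_lt h0 hW1)).symm

end Pool.Agent.Helper32.CL
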